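import Pool.Agent.Helper17.Sign.Numeric

/-! Nilpotency from vanishing traces, rational idempotents, and a generator, modulo elements of
trace zero, of a left ideal. -/

namespace Pool.Agent.Helper89.Sgn

open Polynomial Module Pool.Agent.Helper17.Sign

lemma eq_zero_of_power_sums {K : Type*} [Field K] [CharZero K] (s : Multiset K)
    (h : ∀ n, 1 ≤ n → (s.map (· ^ n)).sum = 0) : ∀ a ∈ s, a = 0 := by
  have hT : Tser s = 0 := by
    ext n
    simp only [Tser, PowerSeries.coeff_mk, map_zero]
    split_ifs with h0
    · rfl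
    · exact h n (Nat.one_le_iff_ne_zero.mpr h0)
  have h1 := logderiv s
  rw [hT, mul_zero, neg_zero] at h1
  have h2 : Pser s = 1 := unique_of_logderiv (Pser s) 1 0 (by rw [h1, mul_zero]) (by simp)
    (constCoeff_Pser s) (by simp) (by simp)
  have h3 : Ppol s = 1 := by
    apply Polynomial.coe_injective
    rw [coe_Ppol, h2, Polynomial.coe_one]
  intro a ha
  have h4 := dvd_Ppol_of_mem s a ha
  rw [h3] at h4
  have h5 : IsUnit (1 - C a * X : K[X]) := isUnit_of_dvd_one h4
  by_contra hne
  have h6 : (1 - C a * X : K[X]) = C (-a) * X + C 1 := by simp; ring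
  have h7 : (1 - C a * X : K[X]).natDegree = 1 := by
    rw [h6, Polynomial.natDegree_linear (neg_ne_zero.mpr hne)]
  have h8 := Polynomial.natDegree_eq_zero_of_isUnit h5
  omega

variable {F V : Type*} [Field F] [CharZero F] [AddCommGroup V] [Module F V]
  [FiniteDimensional F V]

/-- An endomorphism all of whose powers have trace zero is nilpotent. -/
lemma isNilpotent_of_trace (f : Module.End F V)
    (h : ∀ n, 1 ≤ n → LinearMap.trace F V (f ^ n) = 0) : IsNilpotent f := by
  have h1 : ∀ a ∈ eig f, a = 0 := by
    apply eq_zero_of_power_sums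
    intro n hn
    rw [← trace_pow, h n hn, map_zero]
  have h2 : (eig f) = Multiset.replicate (eig f).card 0 := Multiset.eq_replicate_card.mpr h1
  have h3 := prod_eig f
  rw [h2, Multiset.map_replicate, Multiset.prod_replicate, map_zero, sub_zero] at h3
  have h4 : f.charpoly = X ^ (eig f).card := by
    apply Polynomial.map_injective (algebraMap F (AlgebraicClosure F))
      (algebraMap F (AlgebraicClosure F)).injective
    rw [← h3, Polynomial.map_pow, Polynomial.map_X]
  refine ⟨(eig f).card, ?_⟩
  have h5 := LinearMap.aeval_self_charpoly f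
  rw [h4, map_pow, aeval_X] at h5
  exact h5

/-- rational polynomials in an element of a `ℚ`-algebra of endomorphisms -/
lemma aeval_mem (S : Subring (Module.End F V))
    (hS : ∀ (q : ℚ) (u : Module.End F V), u ∈ S → (q : F) • u ∈ S) {u : Module.End F V}
    (hu : u ∈ S) (q : ℚ[X]) : aeval u (q.map (algebraMap ℚ F)) ∈ S := by
  rw [Polynomial.aeval_eq_sum_range' (n := q.natDegree + 1)
    (by rw [Polynomial.natDegree_map]; omega)]
  refine sum_mem fun i _ => ?_
  rw [Polynomial.coeff_map]
  exact hS _ _ (pow_mem hu i)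

/-- A non nilpotent element of a `ℚ`-algebra of endomorphisms with rational traces divides a
nonzero idempotent. -/
lemma exists_idem (S : Subring (Module.End F V))
    (hS : ∀ (q : ℚ) (u : Module.End F V), u ∈ S → (q : F) • u ∈ S) {x : Module.End F V}
    (hx : x ∈ S) (htr : ∀ n, 1 ≤ n → ∃ q : ℚ, LinearMap.trace F V (x ^ n) = (q : F))
    (hnil : ¬ IsNilpotent x) : ∃ p ∈ S, (p * x) * (p * x) = p * x ∧ p * x ≠ 0 := by
  obtain ⟨P, hP⟩ := rational_charpoly x (0 : Module.End F PUnit.{1}) (by
    have : (0 : Module.End F PUnit.{1}).charpoly = 1 := by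
      have h1 := LinearMap.charpoly_monic (0 : Module.End F PUnit.{1})
      have h2 := LinearMap.charpoly_natDegree (0 : Module.End F PUnit.{1})
      rw [Module.finrank_zero_of_subsingleton] at h2
      exact Polynomial.eq_one_of_monic_natDegree_zero h1 h2
    rw [this]; exact isCoprime_one_right) (by
    intro n hn
    obtain ⟨q, hq⟩ := htr n hn
    refine ⟨q, ?_⟩
    rw [hq, zero_pow (by omega), map_zero, sub_zero])
  have hP0 : P ≠ 0 := by
    rintro rfl
    rw [Polynomial.map_zero] at hP
    exact x.charpoly_monic.ne_zero hP.symm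
  obtain ⟨q, hq1, hq2⟩ := Polynomial.exists_eq_pow_rootMultiplicity_mul_and_not_dvd P hP0 0
  rw [map_zero, sub_zero] at hq1 hq2
  set a := P.rootMultiplicity 0 with ha
  have hc : IsCoprime (X ^ (a + 1) : ℚ[X]) q :=
    ((Polynomial.irreducible_X.coprime_iff_not_dvd).2 hq2).pow_left
  obtain ⟨r, s, hrs⟩ := hc
  let E : ℚ[X] → Module.End F V := fun p => aeval x (p.map (algebraMap ℚ F))
  have Emul : ∀ p q, E (p * q) = E p * E q := fun p q => by simp [E]
  have Eadd : ∀ p q, E (p + q) = E p + E q := fun p q => by simp [E]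
  have E1 : E 1 = 1 := by simp [E]
  have EX : E X = x := by simp [E]
  have EP : E P = 0 := by
    show aeval x (P.map (algebraMap ℚ F)) = 0
    rw [hP]; exact LinearMap.aeval_self_charpoly x
  have hg : E (r * X ^ a) * x = E (r * X ^ (a + 1)) := by
    rw [pow_succ, ← mul_assoc, Emul (r * X ^ a) X, EX]
  refine ⟨E (r * X ^ a), aeval_mem S hS hx _, ?_, ?_⟩
  · rw [hg]
    have h1 : E (r * X ^ (a + 1)) + E (s * q) = 1 := by rw [← Eadd, hrs, E1]
    have h2 : E (r * X ^ (a + 1)) * E (s * q) = 0 := by
      rw [← Emul]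
      have : r * X ^ (a + 1) * (s * q) = (r * s * X) * (X ^ a * q) := by ring
      rw [this, ← hq1, Emul, EP, mul_zero]
    calc E (r * X ^ (a + 1)) * E (r * X ^ (a + 1))
        = E (r * X ^ (a + 1)) * (1 - E (s * q)) := by rw [← h1]; congr 1; abel
      _ = E (r * X ^ (a + 1)) := by rw [mul_sub, h2, mul_one, sub_zero]
  · rw [hg]
    intro h0
    apply hnil
    have h1 : E (r * X ^ (a + 1)) + E (s * q) = 1 := by rw [← Eadd, hrs, E1]
    rw [h0, zero_add] at h1
    refine ⟨a, ?_⟩
    have h2 : E (X ^ a) = x ^ a := by simp [E]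
    rw [← h2, ← mul_one (E (X ^ a)), ← h1, ← Emul]
    have : X ^ a * (s * q) = s * (X ^ a * q) := by ring
    rw [this, ← hq1, Emul, EP, mul_zero]

/-- Every left ideal `I` of a `ℚ`-algebra `S` of endomorphisms with rational traces contains an
element `f` such that `y (1 - f)` has trace `τ` zero for all `y` in `I`; here `τ` is any linear
form vanishing on the nilpotent elements of `S`. -/
lemma exists_generator (S : Subring (Module.End F V))
    (hS : ∀ (q : ℚ) (u : Module.End F V), u ∈ S → (q : F) • u ∈ S)
    (htr : ∀ x ∈ S, ∃ q : ℚ, LinearMap.trace F V x = (q : F))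
    (I : AddSubgroup (Module.End F V)) (hIS : ∀ x ∈ I, x ∈ S)
    (hI : ∀ v ∈ S, ∀ x ∈ I, v * x ∈ I) (τ : Module.End F V →ₗ[F] F)
    (hτ : ∀ x ∈ S, IsNilpotent x → τ x = 0) : ∃ f ∈ I, ∀ y ∈ I, τ (y * (1 - f)) = 0 := by
  by_contra hcon
  push Not at hcon
  have key : ∀ n : ℕ, ∃ f ∈ I, f * f = f ∧ n ≤ finrank F (LinearMap.range f) := by
    intro n
    induction n with
    | zero => exact ⟨0, I.zero_mem, by simp, Nat.zero_le _⟩
    | succ n ih =>
      obtain ⟨f, hf, hff, hn⟩ := ih
      obtain ⟨y, hy, hty⟩ := hcon f hf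
      set x := y * (1 - f) with hx
      have hxI : x ∈ I := by
        rw [hx, mul_sub, mul_one]
        exact I.sub_mem hy (hI _ (hIS _ hy) _ hf)
      have hxf : x * f = 0 := by
        rw [hx, mul_assoc, sub_mul, one_mul, hff, sub_self, mul_zero]
      have hxS := hIS _ hxI
      obtain ⟨p, hp, hgg, hg0⟩ := exists_idem S hS hxS (fun n _ => htr _ (pow_mem hxS n))
        (fun hn => hty (hτ _ hxS hn))
      set g := p * x with hg
      have hgI : g ∈ I := hI _ hp _ hxI
      have hgf : g * f = 0 := by rw [hg, mul_assoc, hxf, mul_zero]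
      have h1 : (f + g - f * g) * f = f := by
        rw [sub_mul, add_mul, hff, hgf, mul_assoc, hgf]; simp
      have h2 : (f + g - f * g) * g = g := by
        rw [sub_mul, add_mul, hgg, mul_assoc, hgg]; abel
      refine ⟨f + g - f * g, ?_, ?_, ?_⟩
      · exact I.sub_mem (I.add_mem hf hgI) (hI _ (hIS _ hf) _ hgI)
      · rw [mul_sub, mul_add, h1, h2, ← mul_assoc, h1]
      · have hlt : LinearMap.range f < LinearMap.range (f + g - f * g) := by
          rw [lt_iff_le_and_ne]
          constructor
          · rintro _ ⟨v, rfl⟩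
            exact ⟨f v, by rw [← Module.End.mul_apply, h1]⟩
          · intro heq
            apply hg0
            have h3 : f * g = g := by
              ext v
              have h4 : g v ∈ LinearMap.range f := by
                rw [heq]; exact ⟨g v, by rw [← Module.End.mul_apply, h2]⟩
              obtain ⟨w, hw⟩ := h4
              rw [Module.End.mul_apply, ← hw, ← Module.End.mul_apply, hff]
            calc g = g * g := hgg.symm
              _ = g * (f * g) := by rw [h3]
              _ = 0 := by rw [← mul_assoc, hgf, zero_mul]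
        have := Submodule.finrank_lt_finrank_of_lt hlt
        omega
  obtain ⟨f, -, -, hn⟩ := key (finrank F V + 1)
  have := Submodule.finrank_le (LinearMap.range f)
  omega

end Pool.Agent.Helper89.Sgn
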